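import Pool.Agent.Work.MP_60d5ce_nt.AH.Main

/-!
# The `p^∞`-Selmer group of `E` grows by a finite amount in almost all Artin-Schreier extensions
-/

namespace Pool.Agent.Results.MP_60d5ce_nt.ASGrowthAll

open scoped IntermediateField Topology
open Polynomial Filter Pool.Agent.ASel

theorem result (p : ℕ) (k : Type) [Field k] [Fintype k] [CharP k p] (h5 : 5 ≤ p)
    (E : WeierstrassCurve (RatFunc k)) [E.IsElliptic]
    (hj : ∀ c : k, E.j ≠ algebraMap k (RatFunc k) c)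
    (hA : 13 ≤ p ∨ ∀ y : RatFunc k, y ^ (p - 1) ≠
      ((X ^ 3 + C (-27 * E.c₄) * X + C (-54 * E.c₆)) ^ ((p - 1) / 2)).coeff (p - 1))
    (Ω : Type) [Field Ω] [Algebra (RatFunc k) Ω] [IsSepClosure (RatFunc k) Ω] [DecidableEq Ω] :
    Tendsto (fun N : ℕ => ({L | L ∈ ASx k p Ω N ∧ FinIdx p E L}.ncard : ℝ) /
      ((ASx k p Ω N).ncard : ℝ)) atTop (𝓝 1) := by
  have : Fact p.Prime := ⟨CharP.char_is_prime k p⟩
  exact main_all h5 E hj hA Ω

end Pool.Agent.Results.MP_60d5ce_nt.ASGrowthAll
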