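import Pool.Agent.Work.MP_60d5ce_nt.Sm.SelB

/-!
# The `3^∞`-Selmer group of `E` grows by a finite amount in almost all cubic Kummer extensions
-/

namespace Pool.Agent.Results.MP_60d5ce_nt.CubicSelmerGrowth

open scoped IntermediateField Topology
open Polynomial Filter Pool.Agent.ShaAsc Pool.Agent.Smith

theorem result (k : Type) [Field k] [Fintype k] (hq : Fintype.card k % 3 = 1)
    (a1 a3 P : k[X]) (h0 : a3 ≠ 0) (hP : Irreducible P) (h1 : ¬ P ∣ a1)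
    (h3 : ¬ 3 ∣ multiplicity P a3) (hD : ∀ (c : k) (p : k[X]), a1 ^ 3 - 27 * a3 ≠ C c * p ^ 3)
    (E : WeierstrassCurve (RatFunc k))
    (hE : E = ⟨algebraMap k[X] (RatFunc k) a1, 0, algebraMap k[X] (RatFunc k) a3, 0, 0⟩)
    (Ω : Type) [Field Ω] [Algebra (RatFunc k) Ω] [IsSepClosure (RatFunc k) Ω] [DecidableEq Ω] :
    Tendsto (fun n : ℕ => ({d : k[X] | d ≠ 0 ∧ d.natDegree = n ∧ ∀ δ : Ω,
      δ ^ 3 = algebraMap (RatFunc k) Ω (algebraMap k[X] (RatFunc k) d) →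
        ∃ S : Set ((Ω ≃ₐ[(RatFunc k)⟮δ⟯] Ω) → Pts E Ω), S.Finite ∧
          ∀ c, InSel3 E c → ∃ s ∈ S, ∃ c0 : (Ω ≃ₐ[RatFunc k] Ω) → Pts E Ω, InSel3 E c0 ∧
            SameClass E c fun σ => s σ + c0 (σ.restrictScalars (RatFunc k))}.ncard : ℝ) /
      ({d : k[X] | d ≠ 0 ∧ d.natDegree = n}.ncard : ℝ)) atTop (𝓝 1) := by
  subst hE
  have h : Hyp a1 a3 := ⟨h0, ⟨P, hP, h1, h3⟩, hD⟩
  exact main_gen hq h _ fun X0 _ _ _ hK hT => sel_grow h X0 hK hT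

end Pool.Agent.Results.MP_60d5ce_nt.CubicSelmerGrowth
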